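import Mathlib

/-!
# Forms in disjoint variables: definitions
-/

set_option autoImplicit false

namespace Pool.Agent.Helper67.SF

open MvPolynomial

/-- The composition `H(F_1, ..., F_s)` of polynomials `F_j` in disjoint sets of variables. -/
noncomputable def comp {k : Type} [Field k] {s : ℕ} {σ : Fin s → Type} (H : MvPolynomial (Fin s) k)
    (F : ∀ j, MvPolynomial (σ j) k) : MvPolynomial (Σ j, σ j) k :=
  aeval (fun j => rename (Sigma.mk j) (F j)) H

/-- Small forms of degree `d > 0`. Either `F` is homogeneous of degree `d` for some integral weights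
of the variables, and it has at most two variables, or at most four variables and total degree
at most `3`, or total degree at most `2`; or `2 ≠ 0` in `k`, and `F` has at most three variables and
is homogeneous of degree `d ≤ 4`, or homogeneous of degree `d ≤ 6` if one variable has the weight
`2` and the others the weight `1`. -/
def Small {k : Type} [Field k] {σ : Type} [Fintype σ] (F : MvPolynomial σ k) (d : ℕ) : Prop :=
  0 < d ∧
  (((∃ w : σ → ℤ, IsWeightedHomogeneous w F (d : ℤ)) ∧
      (Fintype.card σ ≤ 2 ∨ (Fintype.card σ ≤ 4 ∧ F.totalDegree ≤ 3) ∨ F.totalDegree ≤ 2)) ∨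
    ((2 : k) ≠ 0 ∧ Fintype.card σ ≤ 3 ∧
      ((F.IsHomogeneous d ∧ d ≤ 4) ∨
        (d ≤ 6 ∧ ∃ (i : σ) (w : σ → ℕ), w i = 2 ∧ (∀ j, j ≠ i → w j = 1) ∧
          IsWeightedHomogeneous w F d))))

/-- `H` is a polynomial in at most two variables, or its exponents are affinely independent. -/
def Independent {k : Type} [Field k] {s : ℕ} (H : MvPolynomial (Fin s) k) : Prop :=
  s ≤ 2 ∨ AffineIndependent ℚ (fun (m : H.support) (i : Fin s) => ((m.1 i : ℕ) : ℚ))

/-- The class of forms: it contains the small forms, and if `F_1, ..., F_s` are forms of degrees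
`d_1, ..., d_s` in disjoint variables and `H` is independent and weighted homogeneous of positive
degree `e` for integral weights divisible by `d_1, ..., d_s`, then `H(F_1, ..., F_s)` is a form of
degree `e`. -/
inductive Form {k : Type} [Field k] : ∀ {σ : Type}, MvPolynomial σ k → ℕ → Prop
  /-- small forms -/
  | small {σ : Type} [Fintype σ] (F : MvPolynomial σ k) (d : ℕ) : Small F d → Form F d
  /-- compositions -/
  | comp {s : ℕ} {σ : Fin s → Type} [∀ j, Fintype (σ j)] (F : ∀ j, MvPolynomial (σ j) k)
      (d : Fin s → ℕ) (H : MvPolynomial (Fin s) k) (w : Fin s → ℤ) (e : ℕ) :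
      (∀ j, Form (F j) (d j)) → Independent H → 0 < e →
      IsWeightedHomogeneous (fun j => (d j : ℤ) * w j) H (e : ℤ) → Form (SF.comp H F) e

end Pool.Agent.Helper67.SF
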