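import Pool.Agent.Helper67.CQ.Unc
import Pool.Agent.Helper67.SF.Defs

/-!
# Forms in disjoint variables
-/

set_option autoImplicit false

namespace Pool.Agent.Helper67.SF

open Pool.Agent.Helper29.CQ (FormalClass Cyc)
open Pool.Agent.Helper67.CQ (Simplex pows Mem GoodD isHyp_std mem_two mem_simplex whom_cast p_two p_cubic p_quadric
  p_level tern_zero low_mem deh deh_degree Low comp_mem comp_sub_one pows_sub_one)
open MvPolynomial (eval₂ eval₂Hom IsWeightedHomogeneous rename C X monomial)

variable {p : ℕ} {P : ∀ (A : Type) [CommRing A], Prop}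

section

variable {k : Type} [Field k]

/-- the exponents of `H(t ^ d)` -/
theorem pows_support {s : ℕ} (H : MvPolynomial (Fin s) k) (d : Fin s → ℕ) (m : Fin s →₀ ℕ)
    (hm : m ∈ (pows H d).support) : ∃ n ∈ H.support, ∀ i, m i = d i * n i := by
  classical
  by_contra hcon
  push Not at hcon
  rw [MvPolynomial.mem_support_iff] at hm
  refine hm ?_
  rw [pows, MvPolynomial.aeval_def, MvPolynomial.eval₂_eq', MvPolynomial.coeff_sum]
  refine Finset.sum_eq_zero fun n hn => ?_
  have h1 : (∏ i, ((X i : MvPolynomial (Fin s) k) ^ d i) ^ n i) =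
      monomial (Finsupp.equivFunOnFinite.symm fun i => d i * n i) (1 : k) := by
    rw [MvPolynomial.monomial_eq, Finsupp.prod_fintype _ _ (fun _ => pow_zero _), map_one, one_mul]
    refine Finset.prod_congr rfl fun i _ => ?_
    rw [← pow_mul]
    rfl
  rw [h1]
  change MvPolynomial.coeff m (C (H.coeff n) * monomial (Finsupp.equivFunOnFinite.symm fun i => d i * n i) (1 : k)) = 0
  rw [MvPolynomial.C_mul_monomial, MvPolynomial.coeff_monomial, if_neg]
  rintro rfl
  obtain ⟨i, hi⟩ := hcon n hn
  exact hi rfl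

theorem simplex_pows {s : ℕ} {H : MvPolynomial (Fin s) k} (hH : Simplex H) {d : Fin s → ℕ} (hd : ∀ j, d j ≠ 0) :
    Simplex (pows H d) := by
  classical
  choose g hg1 hg2 using fun m : (pows H d).support => pows_support H d m.1 m.2
  let g' : (pows H d).support → H.support := fun m => ⟨g m, hg1 m⟩
  have hinj : Function.Injective g' := by
    intro a b hab
    have h1 : g a = g b := congrArg Subtype.val hab
    refine Subtype.ext (Finsupp.ext fun i => ?_)
    rw [hg2, hg2, h1]
  rw [Simplex, affineIndependent_iff] at hH ⊢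
  intro S w hw0 hw1 m hm
  set w' : H.support → ℚ := fun n => if hn : ∃ m, g' m = n then w hn.choose else 0 with hw'
  have hw'1 : ∀ m, w' (g' m) = w m := by
    intro m
    have h2 : ∃ m', g' m' = g' m := ⟨m, rfl⟩
    rw [hw']
    simp only
    rw [dif_pos h2]
    exact congrArg w (hinj h2.choose_spec)
  have h3 := hH (S.image g') w' (by
    rw [Finset.sum_image (fun a _ b _ hab => hinj hab)]
    exact (Finset.sum_congr rfl fun j _ => hw'1 j).trans hw0) (by
    rw [Finset.sum_image (fun a _ b _ hab => hinj hab)]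
    funext i
    rw [Finset.sum_apply, Pi.zero_apply]
    have h4 := congrFun hw1 i
    rw [Finset.sum_apply, Pi.zero_apply] at h4
    have h5 : ∀ m ∈ S, (w m • fun i : Fin s => (((m : Fin s →₀ ℕ) i : ℕ) : ℚ)) i =
        (d i : ℚ) * (w' (g' m) • fun i : Fin s => (((g' m : Fin s →₀ ℕ) i : ℕ) : ℚ)) i := by
      intro m _
      rw [Pi.smul_apply, Pi.smul_apply, hw'1, hg2 m i, smul_eq_mul, smul_eq_mul, Nat.cast_mul]
      ring
    rw [Finset.sum_congr rfl h5, ← Finset.mul_sum] at h4
    exact (mul_eq_zero.1 h4).resolve_left (by exact_mod_cast hd i)) (g' m) (Finset.mem_image_of_mem _ hm)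
  rw [hw'1] at h3
  exact h3

theorem simplex_sub_one {s : ℕ} {H : MvPolynomial (Fin s) k} (hH : Simplex H) {v : Fin s → ℤ} {e : ℤ} (he : e ≠ 0)
    (hv : IsWeightedHomogeneous v H e) : Simplex (H - 1) := by
  classical
  have hsup : ∀ m : (H - 1).support, m.1 ≠ 0 → m.1 ∈ H.support := by
    intro m hm
    have h1 := MvPolynomial.mem_support_iff.1 m.2
    rw [MvPolynomial.coeff_sub, MvPolynomial.coeff_one, if_neg (Ne.symm hm), sub_zero] at h1
    exact MvPolynomial.mem_support_iff.2 h1
  rw [Simplex, affineIndependent_iff] at hH ⊢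
  intro S w hw0 hw1
  set S' : Finset (H - 1).support := S.filter fun m => m.1 ≠ 0 with hS'
  have hwt : ∀ m ∈ S', ∑ i, (v i : ℚ) * ((m.1 i : ℕ) : ℚ) = (e : ℚ) := by
    intro m hm
    rw [hS', Finset.mem_filter] at hm
    have h1 := hv (MvPolynomial.mem_support_iff.1 (hsup m hm.2))
    rw [Finsupp.weight_apply, Finsupp.sum_fintype _ _ (by simp)] at h1
    rw [← h1, Int.cast_sum]
    refine Finset.sum_congr rfl fun i _ => ?_
    rw [nsmul_eq_mul, Int.cast_mul, Int.cast_natCast, mul_comm]
  -- the sum over the nonzero exponents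
  have h2 : ∀ i, ∑ m ∈ S', w m * ((m.1 i : ℕ) : ℚ) = 0 := by
    intro i
    have h3 := congrFun hw1 i
    rw [Finset.sum_apply, Pi.zero_apply] at h3
    rw [← h3, hS', Finset.sum_filter]
    refine Finset.sum_congr rfl fun m _ => ?_
    split_ifs with h4
    · rfl
    · rw [not_not] at h4
      rw [Pi.smul_apply, h4, Finsupp.coe_zero, Pi.zero_apply, Nat.cast_zero, smul_zero]
  have h3 : ∑ m ∈ S', w m = 0 := by
    have h4 : (e : ℚ) * ∑ m ∈ S', w m = 0 := by
      calc (e : ℚ) * ∑ m ∈ S', w m = ∑ m ∈ S', w m * ∑ i, (v i : ℚ) * ((m.1 i : ℕ) : ℚ) := by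
            rw [Finset.mul_sum]
            refine Finset.sum_congr rfl fun m hm => ?_
            rw [hwt m hm, mul_comm]
        _ = ∑ i, (v i : ℚ) * ∑ m ∈ S', w m * ((m.1 i : ℕ) : ℚ) := by
            simp only [Finset.mul_sum]
            rw [Finset.sum_comm]
            refine Finset.sum_congr rfl fun i _ => Finset.sum_congr rfl fun m _ => ?_
            ring
        _ = 0 := Finset.sum_eq_zero fun i _ => by rw [h2 i, mul_zero]
    exact (mul_eq_zero.1 h4).resolve_left (by exact_mod_cast he)
  have hz : ∀ m ∈ S', w m = 0 := by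
    have hmem : ∀ m : (H - 1).support, m ∈ S' → m.1 ≠ 0 := by
      intro m hm
      rw [hS', Finset.mem_filter] at hm
      exact hm.2
    let g' : S' → H.support := fun m => ⟨m.1.1, hsup m.1 (hmem m.1 m.2)⟩
    have hinj : Function.Injective g' := by
      intro a b hab
      have h1 : a.1.1 = b.1.1 := congrArg (fun t : H.support => t.1) hab
      exact Subtype.ext (Subtype.ext h1)
    set w' : H.support → ℚ := fun n => if hn : ∃ m, g' m = n then w hn.choose.1 else 0 with hw'
    have hw'1 : ∀ m, w' (g' m) = w m.1 := by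
      intro m
      have h2 : ∃ m', g' m' = g' m := ⟨m, rfl⟩
      rw [hw']
      simp only
      rw [dif_pos h2]
      exact congrArg (fun t : S' => w t.1) (hinj h2.choose_spec)
    have h5 := hH (Finset.univ.image g') w' (by
      rw [Finset.sum_image (fun a _ b _ hab => hinj hab)]
      rw [Finset.sum_congr rfl fun j _ => hw'1 j]
      rw [← Finset.sum_coe_sort S' w] at h3
      exact h3) (by
      rw [Finset.sum_image (fun a _ b _ hab => hinj hab)]
      funext i
      rw [Finset.sum_apply, Pi.zero_apply]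
      have h4 := h2 i
      rw [← Finset.sum_coe_sort S' (fun m => w m * ((m.1 i : ℕ) : ℚ))] at h4
      rw [← h4]
      refine Finset.sum_congr rfl fun m _ => ?_
      rw [hw'1]
      rfl)
    intro m hm
    have h6 := h5 (g' ⟨m, hm⟩) (Finset.mem_image_of_mem _ (Finset.mem_univ _))
    rw [hw'1] at h6
    exact h6
  intro m hm
  by_cases hm0 : m.1 = 0
  · rw [Finset.sum_eq_single_of_mem m hm] at hw0
    · exact hw0
    · intro m' hm' hne
      refine hz m' ?_
      rw [hS', Finset.mem_filter]
      exact ⟨hm', fun h0 => hne (Subtype.ext (h0.trans hm0.symm))⟩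
  · refine hz m ?_
    rw [hS', Finset.mem_filter]
    exact ⟨hm, hm0⟩

theorem mem_pows [Finite k] (hp : p.Prime) (hP : FormalClass p P) (hk : (p : k) = 0) {s : ℕ}
    {H : MvPolynomial (Fin s) k} (hH : Independent H) {d : Fin s → ℕ} (hd : ∀ j, d j ≠ 0) : Mem P (pows H d) := by
  rcases hH with hs | hH
  · exact mem_two hP hk hs _
  · exact mem_simplex hp hP hk (simplex_pows hH hd)

theorem Independent.sub_one {s : ℕ} {H : MvPolynomial (Fin s) k} (hH : Independent H) {v : Fin s → ℤ} {e : ℤ}
    (he : e ≠ 0) (hv : IsWeightedHomogeneous v H e) : Independent (H - 1) := by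
  rcases hH with hs | hH
  · exact Or.inl hs
  · exact Or.inr (simplex_sub_one hH he hv)

/-- the exponents of `G(x, y, 1)` -/
theorem deh_support {G : MvPolynomial (Fin 3) k} {m : Fin 2 →₀ ℕ} (hm : m ∈ (deh G).support) :
    ∃ n ∈ G.support, n 0 = m 0 ∧ n 1 = m 1 := by
  classical
  by_contra hcon
  push Not at hcon
  rw [MvPolynomial.mem_support_iff] at hm
  refine hm ?_
  rw [deh, MvPolynomial.eval₂_eq', MvPolynomial.coeff_sum]
  refine Finset.sum_eq_zero fun n hn => ?_
  have h1 : (∏ i : Fin 3, (![X 0, X 1, 1] : Fin 3 → MvPolynomial (Fin 2) k) i ^ n i) =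
      monomial (Finsupp.equivFunOnFinite.symm ![n 0, n 1]) (1 : k) := by
    rw [MvPolynomial.monomial_eq, Finsupp.prod_fintype _ _ (fun _ => pow_zero _), map_one, one_mul,
      Fin.prod_univ_three, Fin.prod_univ_two]
    simp
  rw [h1, MvPolynomial.C_mul_monomial, MvPolynomial.coeff_monomial, if_neg]
  rintro rfl
  exact hcon n hn (by simp) (by simp)

theorem low_sextic {G : MvPolynomial (Fin 3) k} {d : ℕ} (hd : d ≤ 6) (hG : IsWeightedHomogeneous ![1, 2, 1] G d) :
    Low (deh G) := by
  right
  intro m hm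
  obtain ⟨n, hn, h0, h1⟩ := deh_support hm
  have h2 := hG (MvPolynomial.mem_support_iff.1 hn)
  rw [Finsupp.weight_apply, Finsupp.sum_fintype _ _ (by simp), Fin.sum_univ_three] at h2
  simp only [Matrix.cons_val_zero, Matrix.cons_val_one, Matrix.cons_val, smul_eq_mul, mul_one] at h2
  omega

/-- ternary forms in numbered variables -/
theorem p_ternary [Finite k] [CharP k p] (hp : p.Prime) (hP : FormalClass p P) (h2 : (2 : k) ≠ 0) {d : ℕ}
    (hd : 0 < d) {w : Fin 3 → ℕ} (hw : w 2 = 1) {G : MvPolynomial (Fin 3) k} (hG : IsWeightedHomogeneous w G d)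
    (hL : Low (deh G)) (c : k) : P (MvPolynomial (Fin 3) k ⧸ Ideal.span {G - C c}) := by
  have hk : (p : k) = 0 := CharP.cast_eq_zero k p
  have hp2 : p ≠ 2 := by
    rintro rfl
    exact h2 (by exact_mod_cast hk)
  exact p_level hP hk (fun f hf n hn => low_mem hp hp2 hP f hf n hn) (w := fun i => (w i : ℤ))
    (by rw [hw, Nat.cast_one]) hd (whom_cast hG) hL c

theorem h_rename {σ τ : Type} {w : τ → ℕ} (e : σ → τ) {F : MvPolynomial σ k} {d : ℕ}
    (hF : IsWeightedHomogeneous (w ∘ e) F d) : IsWeightedHomogeneous w (rename e F) d := by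
  intro m hm
  obtain ⟨n, rfl, hn⟩ := MvPolynomial.coeff_rename_ne_zero _ _ _ hm
  rw [← hF hn, Finsupp.weight_apply, Finsupp.weight_apply]
  exact Finsupp.sum_mapDomain_index (h := fun i c => c • w i) (fun _ => zero_smul _ _)
    (fun _ _ _ => add_smul _ _ _)

theorem degree_sub_C {τ : Type} (G : MvPolynomial τ k) (c : k) : (G - C c).totalDegree ≤ G.totalDegree := by
  refine (MvPolynomial.totalDegree_sub _ _).trans ?_
  rw [MvPolynomial.totalDegree_C]
  exact max_le le_rfl (Nat.zero_le _)

/-- renumbering the variables -/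
theorem p_rename [Finite k] (hP : FormalClass p P) {σ τ : Type} (e : σ ≃ τ) {F : MvPolynomial σ k} {c : k}
    (h : P (MvPolynomial τ k ⧸ Ideal.span {rename e F - C c})) : P (MvPolynomial σ k ⧸ Ideal.span {F - C c}) := by
  obtain ⟨f⟩ := (isHyp_std (rename e F - C c)).equiv (isHyp_std (F - C c)) e (by rw [map_sub, MvPolynomial.rename_C])
  exact hP.iso _ _ f h

theorem Small.level [Finite k] [CharP k p] (hp : p.Prime) (hP : FormalClass p P) {σ : Type} [Fintype σ]
    {F : MvPolynomial σ k} {d : ℕ} (hF : Small F d) (c : k) : P (MvPolynomial σ k ⧸ Ideal.span {F - C c}) := by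
  have hk : (p : k) = 0 := CharP.cast_eq_zero k p
  obtain ⟨hd, ⟨-, h1⟩ | ⟨h2, h3, h4⟩⟩ := hF
  · refine p_rename hP (Fintype.equivFin σ) ?_
    have hdeg : (rename (Fintype.equivFin σ) F - C c).totalDegree ≤ F.totalDegree :=
      (degree_sub_C _ _).trans (MvPolynomial.totalDegree_rename_le _ _)
    rcases h1 with h1 | ⟨h1, h5⟩ | h1
    · exact p_two hP hk h1 _
    · exact p_cubic hp hP hk h1 (hdeg.trans h5)
    · exact p_quadric hp hP hk _ (hdeg.trans h1)
  · rcases h3.lt_or_eq with h5 | h5
    · exact p_rename hP (Fintype.equivFin σ) (p_two hP hk (by omega) _)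
    · rcases h4 with ⟨h4, h6⟩ | ⟨h6, i, w, hi, hj, h4⟩
      · refine p_rename hP (Fintype.equivFinOfCardEq h5) (p_ternary hp hP h2 hd (w := fun _ => 1) rfl ?_ ?_ c)
        · exact (h4.rename_isHomogeneous : (rename (Fintype.equivFinOfCardEq h5) F).IsHomogeneous d)
        · refine Or.inl ((deh_degree _).trans ?_)
          exact ((MvPolynomial.totalDegree_rename_le _ _).trans h4.totalDegree_le).trans h6
      · -- the variable of weight two becomes the second one
        set e : σ ≃ Fin 3 := (Fintype.equivFinOfCardEq h5).trans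
          (Equiv.swap (Fintype.equivFinOfCardEq h5 i) 1) with he
        have hei : e i = 1 := by
          rw [he, Equiv.trans_apply, Equiv.swap_apply_left]
        have hG : IsWeightedHomogeneous ![1, 2, 1] (rename e F) d := by
          have h7 : (![1, 2, 1] : Fin 3 → ℕ) ∘ e = w := by
            funext j
            rw [Function.comp_apply]
            by_cases hji : j = i
            · subst hji
              rw [hei, hi]
              rfl
            · rw [hj j hji]
              have h8 : e j ≠ 1 := fun h9 => hji (e.injective (h9.trans hei.symm))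
              generalize e j = a at h8
              fin_cases a
              · rfl
              · exact absurd rfl h8
              · rfl
          exact h_rename e (by rw [h7]; exact h4)
        exact p_rename hP e (p_ternary hp hP h2 hd (w := ![1, 2, 1]) rfl hG (low_sextic h6 hG) c)

theorem Small.whom {σ : Type} [Fintype σ] {F : MvPolynomial σ k} {d : ℕ} (hF : Small F d) :
    ∃ w : σ → ℤ, IsWeightedHomogeneous w F (d : ℤ) := by
  obtain ⟨-, ⟨h1, -⟩ | ⟨-, -, ⟨h4, -⟩ | ⟨-, i, w, -, -, h4⟩⟩⟩ := hF
  · exact h1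
  · exact ⟨fun _ => 1, whom_cast (w := fun _ => 1) h4⟩
  · exact ⟨fun j => (w j : ℤ), whom_cast h4⟩

theorem Small.good [Finite k] [CharP k p] (hp : p.Prime) (hP : FormalClass p P) {σ : Type} [Fintype σ]
    {F : MvPolynomial σ k} {d : ℕ} (hF : Small F d) : GoodD P F d := by
  refine ⟨hF.1.ne', hF.whom, ?_, ?_⟩
  · have h2 := hF.level hp hP 0
    rw [map_zero, sub_zero] at h2
    exact h2
  · have h2 := hF.level hp hP 1
    rw [map_one] at h2
    exact h2

theorem Form.good [Finite k] [CharP k p] (hp : p.Prime) (hP : FormalClass p P) {σ : Type}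
    {F : MvPolynomial σ k} {d : ℕ} (hF : Form F d) : GoodD P F d := by
  have hk : (p : k) = 0 := CharP.cast_eq_zero k p
  induction hF with
  | small F d h => exact h.good hp hP
  | comp F d H w e _ hH he hw ih =>
    refine GoodD.comp hP hk ih he.ne' hw (mem_pows hp hP hk hH fun j => (ih j).1) ?_
    rw [← pows_sub_one]
    exact mem_pows hp hP hk (hH.sub_one (by exact_mod_cast he.ne') hw) fun j => (ih j).1

/-- **forms in disjoint variables** -/
theorem main [Finite k] [CharP k p] (hp : p.Prime) (hP : FormalClass p P) {s : ℕ} {σ : Fin s → Type}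
    [∀ j, Fintype (σ j)] {F : ∀ j, MvPolynomial (σ j) k} {d : Fin s → ℕ} (hF : ∀ j, Form (F j) (d j))
    {H : MvPolynomial (Fin s) k} (hH : Independent H) :
    P (MvPolynomial (Σ j, σ j) k ⧸ Ideal.span {comp H F}) := by
  have hk : (p : k) = 0 := CharP.cast_eq_zero k p
  exact comp_mem hP hk (fun j => (hF j).good hp hP) (mem_pows hp hP hk hH fun j => ((hF j).good hp hP).1)

end

end Pool.Agent.Helper67.SF
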