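import Pool.Agent.Helper67.CQ.Basic

/-!
# Polynomials with affinely independent exponents and coefficients which are products of linear
functions of parameters
-/

set_option autoImplicit false

namespace Pool.Agent.Helper67.SF

open Pool.Agent.Helper29.CQ (FormalClass)
open Pool.Agent.Helper67.CQ (of_tame char_quot char_mv prod_const)
open Pool.Agent.Helper87.CC (ProductFunctions ft_alg)
open MvPolynomial (eval₂ eval₂Hom C X monomial)
open TensorProduct

variable {p : ℕ} {P : ∀ (A : Type) [CommRing A], Prop}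

section

variable {k : Type} [Field k] {J : Type} [Fintype J] {n m : ℕ} {T : Type} [CommRing T] [Algebra k T]

/-- the equation -/
def pfun (α : J → Fin m →₀ ℕ) (cc : J → T) (s t : J → k) {E : Type} [CommRing E] (c : T →+* E)
    (l : Fin n → E) (u : Fin m → E) : E :=
  ∑ j, c (cc j) * (∏ i, (c (algebraMap k T (t j)) - c (algebraMap k T (s j)) * l i)) * ∏ i, u i ^ α j i

/-- the polynomial -/
noncomputable def ppol (n : ℕ) (α : J → Fin m →₀ ℕ) (cc : J → T) (s t : J → k) : MvPolynomial (Fin n ⊕ Fin m) T :=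
  pfun α cc s t C (fun i : Fin n => X (Sum.inl i)) (fun i => X (Sum.inr i))

theorem pfun_map {α : J → Fin m →₀ ℕ} {cc : J → T} {s t : J → k} {E E' : Type} [CommRing E] [CommRing E']
    (h : E →+* E') (c : T →+* E) (l : Fin n → E) (u : Fin m → E) :
    h (pfun α cc s t c l u) = pfun α cc s t (h.comp c) (fun i => h (l i)) (fun i => h (u i)) := by
  unfold pfun
  simp only [map_sum, map_mul, map_prod, map_sub, map_pow, RingHom.comp_apply]

theorem eval_ppol {α : J → Fin m →₀ ℕ} {cc : J → T} {s t : J → k} {E : Type} [CommRing E] (c : T →+* E)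
    (z : Fin n ⊕ Fin m → E) :
    eval₂ c z (ppol n α cc s t) = pfun α cc s t c (fun i => z (Sum.inl i)) (fun i => z (Sum.inr i)) := by
  have h := pfun_map (α := α) (cc := cc) (s := s) (t := t) (eval₂Hom c z) C (fun i : Fin n => X (Sum.inl i))
    (fun i => X (Sum.inr i))
  rw [MvPolynomial.coe_eval₂Hom] at h
  refine h.trans ?_
  have h1 : (eval₂Hom c z).comp C = c := MvPolynomial.eval₂Hom_comp_C c z
  rw [h1]
  simp only [MvPolynomial.eval₂_X]

/-- `R` represents the points `(l, u)` of the equation -/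
structure IsPar {R : Type} [CommRing R] (α : J → Fin m →₀ ℕ) (cc : J → T) (s t : J → k) (c : T →+* R)
    (l : Fin n → R) (u : Fin m → R) : Prop where
  rel : pfun α cc s t c l u = 0
  ex : ∀ (E : Type) [CommRing E] (f : T →+* E) (l' : Fin n → E) (u' : Fin m → E), pfun α cc s t f l' u' = 0 →
    ∃ h : R →+* E, h.comp c = f ∧ (∀ i, h (l i) = l' i) ∧ ∀ i, h (u i) = u' i
  uniq : ∀ (E : Type) [CommRing E] (f g : R →+* E), f.comp c = g.comp c → (∀ i, f (l i) = g (l i)) →
    (∀ i, f (u i) = g (u i)) → f = g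

theorem IsPar.equiv {R R' : Type} [CommRing R] [CommRing R'] {α : J → Fin m →₀ ℕ} {cc : J → T} {s t : J → k}
    {c : T →+* R} {l : Fin n → R} {u : Fin m → R} {c' : T →+* R'} {l' : Fin n → R'} {u' : Fin m → R'}
    (h : IsPar α cc s t c l u) (h' : IsPar α cc s t c' l' u') : Nonempty (R ≃+* R') := by
  obtain ⟨f, f1, f2, f3⟩ := h.ex R' c' l' u' h'.rel
  obtain ⟨g, g1, g2, g3⟩ := h'.ex R c l u h.rel
  refine ⟨RingEquiv.ofRingHom f g ?_ ?_⟩
  · refine h'.uniq R' _ _ ?_ (fun i => ?_) (fun i => ?_)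
    · rw [RingHom.comp_assoc, g1, f1, RingHom.id_comp]
    · rw [RingHom.comp_apply, g2, f2, RingHom.id_apply]
    · rw [RingHom.comp_apply, g3, f3, RingHom.id_apply]
  · refine h.uniq R _ _ ?_ (fun i => ?_) (fun i => ?_)
    · rw [RingHom.comp_assoc, f1, g1, RingHom.id_comp]
    · rw [RingHom.comp_apply, f2, g2, RingHom.id_apply]
    · rw [RingHom.comp_apply, f3, g3, RingHom.id_apply]

theorem isPar_std (n : ℕ) (α : J → Fin m →₀ ℕ) (cc : J → T) (s t : J → k) :
    IsPar α cc s t ((Ideal.Quotient.mk (Ideal.span {ppol n α cc s t})).comp C)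
      (fun i : Fin n => Ideal.Quotient.mk (Ideal.span {ppol n α cc s t}) (X (Sum.inl i)))
      (fun i => Ideal.Quotient.mk (Ideal.span {ppol n α cc s t}) (X (Sum.inr i))) := by
  refine ⟨?_, ?_, ?_⟩
  · rw [← pfun_map]
    exact Ideal.Quotient.eq_zero_iff_mem.2 (Ideal.mem_span_singleton_self _)
  · intro E _ f l' u' h
    have h1 : eval₂ f (Sum.elim l' u') (ppol n α cc s t) = 0 := by
      rw [eval_ppol]
      exact h
    refine ⟨Ideal.Quotient.lift _ (eval₂Hom f (Sum.elim l' u')) ?_, ?_, ?_, ?_⟩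
    · intro a ha
      obtain ⟨b, rfl⟩ := Ideal.mem_span_singleton.1 ha
      rw [map_mul, MvPolynomial.coe_eval₂Hom, h1, zero_mul]
    · ext a
      rw [RingHom.comp_apply, RingHom.comp_apply, Ideal.Quotient.lift_mk, MvPolynomial.eval₂Hom_C]
    · intro i
      rw [Ideal.Quotient.lift_mk, MvPolynomial.eval₂Hom_X']
      rfl
    · intro i
      rw [Ideal.Quotient.lift_mk, MvPolynomial.eval₂Hom_X']
      rfl
  · intro E _ f g h1 h2 h3
    refine Ideal.Quotient.ringHom_ext (MvPolynomial.ringHom_ext (fun a => ?_) fun i => ?_)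
    · exact RingHom.congr_fun h1 a
    · rcases i with i | i
      · exact h2 i
      · exact h3 i

/-- no parameters -/
theorem isPar_zero (α : J → Fin m →₀ ℕ) (cc : J → T) (s t : J → k) :
    IsPar α cc s t ((Ideal.Quotient.mk (Ideal.span {(∑ j, monomial (α j) (cc j) : MvPolynomial (Fin m) T)})).comp C)
      (fun i : Fin 0 => i.elim0)
      (fun i => Ideal.Quotient.mk (Ideal.span {(∑ j, monomial (α j) (cc j) : MvPolynomial (Fin m) T)}) (X i)) := by
  have key : ∀ (E : Type) [CommRing E] (f : T →+* E) (l' : Fin 0 → E) (u' : Fin m → E),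
      eval₂ f u' (∑ j, monomial (α j) (cc j) : MvPolynomial (Fin m) T) = pfun α cc s t f l' u' := by
    intro E _ f l' u'
    rw [← MvPolynomial.coe_eval₂Hom, map_sum, pfun]
    refine Finset.sum_congr rfl fun j _ => ?_
    rw [MvPolynomial.coe_eval₂Hom, MvPolynomial.eval₂_monomial, Finset.prod_of_isEmpty, mul_one,
      Finsupp.prod_fintype _ _ (fun _ => pow_zero _)]
  set Q := Ideal.Quotient.mk (Ideal.span {(∑ j, monomial (α j) (cc j) : MvPolynomial (Fin m) T)}) with hQ
  refine ⟨?_, ?_, ?_⟩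
  · rw [← key]
    have h1 : eval₂Hom (Q.comp C) (fun i => Q (X i)) = Q := by
      refine MvPolynomial.ringHom_ext (fun a => ?_) fun i => ?_
      · rw [MvPolynomial.eval₂Hom_C]; rfl
      · rw [MvPolynomial.eval₂Hom_X']
    rw [← MvPolynomial.coe_eval₂Hom, h1]
    exact Ideal.Quotient.eq_zero_iff_mem.2 (Ideal.mem_span_singleton_self _)
  · intro E _ f l' u' h
    rw [← key] at h
    refine ⟨Ideal.Quotient.lift _ (eval₂Hom f u') ?_, ?_, fun i => i.elim0, ?_⟩
    · intro a ha
      obtain ⟨b, rfl⟩ := Ideal.mem_span_singleton.1 ha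
      rw [map_mul, MvPolynomial.coe_eval₂Hom, h, zero_mul]
    · ext a
      rw [RingHom.comp_apply, RingHom.comp_apply, hQ, Ideal.Quotient.lift_mk, MvPolynomial.eval₂Hom_C]
    · intro i
      rw [hQ, Ideal.Quotient.lift_mk, MvPolynomial.eval₂Hom_X']
  · intro E _ f g h1 _ h3
    exact Ideal.Quotient.ringHom_ext (MvPolynomial.ringHom_ext (fun a => RingHom.congr_fun h1 a) h3)

/-- over a finite field the two structures of `T ⊗ R` agree on the complement of an idempotent -/
theorem exists_idem [Finite k] (hp : p.Prime) (hk : (p : k) = 0) {S : Type} [CommRing S] (f g : k →+* S) :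
    ∃ e : S, e * e = e ∧ (∀ (E : Type) [CommRing E] (h : S →+* E), h e = 0 → h.comp f = h.comp g) ∧
      ∀ (E : Type) [CommRing E] (h : S →+* E), h.comp f = h.comp g → h e = 0 := by
  have := Fintype.ofFinite k
  have hpf : Fact p.Prime := ⟨hp⟩
  have hch : CharP k p := (CharP.charP_iff_prime_eq_zero hp).2 hk
  obtain ⟨r, -, hq⟩ := FiniteField.card k p
  obtain ⟨w, hw⟩ := IsCyclic.exists_generator (α := kˣ)
  set x : S := f w - g w with hx
  have hxq : x ^ Fintype.card k = x := by
    rcases subsingleton_or_nontrivial S with hS | hS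
    · exact Subsingleton.elim _ _
    · have hS' : CharP S p := (CharP.charP_iff_prime_eq_zero hp).2 (by
        rw [← map_natCast f, hk, map_zero])
      rw [hx, hq, sub_pow_char_pow, ← map_pow, ← map_pow, ← hq, FiniteField.pow_card]
  have h2 : 2 ≤ Fintype.card k := Fintype.one_lt_card
  obtain ⟨N, hN⟩ : ∃ N, Fintype.card k = N + 2 := ⟨_, (Nat.sub_add_cancel h2).symm⟩
  rw [hN] at hxq
  refine ⟨x ^ (N + 1), ?_, ?_, ?_⟩
  · calc x ^ (N + 1) * x ^ (N + 1) = x ^ (N + 2) * x ^ N := by ring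
      _ = x * x ^ N := by rw [hxq]
      _ = x ^ (N + 1) := by ring
  · intro E _ h he
    have h1 : h x = 0 := by
      rw [← hxq, pow_succ, map_mul, he, zero_mul]
    rw [hx, map_sub, sub_eq_zero] at h1
    ext a
    rw [RingHom.comp_apply, RingHom.comp_apply]
    by_cases ha : a = 0
    · rw [ha, map_zero, map_zero, map_zero, map_zero]
    · obtain ⟨j, hj⟩ := (mem_powers_iff_mem_zpowers.2 (hw (Units.mk0 a ha)) : _ ∈ Submonoid.powers w)
      have hj' : (w : k) ^ j = a := by
        have h3 := congrArg (Units.val) hj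
        simpa using h3
      rw [← hj', map_pow, map_pow, map_pow, map_pow, h1]
  · intro E _ h he
    have h1 : h x = 0 := by
      rw [hx, map_sub, sub_eq_zero]
      exact RingHom.congr_fun he w
    rw [map_pow, h1, zero_pow (Nat.succ_ne_zero N)]

end

section

variable {k : Type} [Field k] {J : Type} [Fintype J] {n m : ℕ} {T : Type} [CommRing T] [Algebra k T]

/-- the left factor -/
noncomputable def inl1 (k T : Type) [Field k] [CommRing T] [Algebra k T] : T →+* T ⊗[ℤ] Polynomial k :=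
  (Algebra.TensorProduct.includeLeft : T →ₐ[ℤ] T ⊗[ℤ] Polynomial k).toRingHom

/-- the right factor -/
noncomputable def inr1 (k T : Type) [Field k] [CommRing T] [Algebra k T] : Polynomial k →+* T ⊗[ℤ] Polynomial k :=
  (Algebra.TensorProduct.includeRight : Polynomial k →ₐ[ℤ] T ⊗[ℤ] Polynomial k).toRingHom

theorem inl1_apply (a : T) : inl1 k T a = a ⊗ₜ[ℤ] 1 := rfl

theorem inr1_apply (a : Polynomial k) : inr1 k T a = 1 ⊗ₜ[ℤ] a := rfl

theorem inl1_mul_inr1 (a : T) (b : Polynomial k) : inl1 k T a * inr1 k T b = a ⊗ₜ[ℤ] b := by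
  rw [inl1_apply, inr1_apply, Algebra.TensorProduct.tmul_mul_tmul, mul_one, one_mul]

/-- one parameter more -/
theorem pfun_succ {α : J → Fin m →₀ ℕ} {cc : J → T} {s t : J → k} {E : Type} [CommRing E]
    (φ : T ⊗[ℤ] Polynomial k →+* E)
    (hφ : φ.comp (algebraMap k (T ⊗[ℤ] Polynomial k)) = φ.comp ((inr1 k T).comp Polynomial.C))
    (l : Fin n → E) (u : Fin m → E) :
    pfun α cc s t (φ.comp (inl1 k T)) (Fin.cons (φ (inr1 k T Polynomial.X)) l : Fin (n + 1) → E) u =
      pfun α (fun j => cc j ⊗ₜ[ℤ] (Polynomial.C (t j) - Polynomial.C (s j) * Polynomial.X)) s t φ l u := by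
  unfold pfun
  refine Finset.sum_congr rfl fun j _ => ?_
  have h0 : ∀ a : k, φ (inr1 k T (Polynomial.C a)) = φ (inl1 k T (algebraMap k T a)) := by
    intro a
    exact (RingHom.congr_fun hφ a).symm
  have h1 : ∀ a : k, φ (algebraMap k (T ⊗[ℤ] Polynomial k) a) = φ (inl1 k T (algebraMap k T a)) := by
    intro a
    rfl
  have h2 : φ (cc j ⊗ₜ[ℤ] (Polynomial.C (t j) - Polynomial.C (s j) * Polynomial.X)) =
      φ (inl1 k T (cc j)) * (φ (inl1 k T (algebraMap k T (t j))) -
        φ (inl1 k T (algebraMap k T (s j))) * φ (inr1 k T Polynomial.X)) := by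
    rw [← inl1_mul_inr1, map_mul, map_sub, map_mul, map_sub, map_mul, h0, h0]
  rw [Fin.prod_univ_succ]
  simp only [Fin.cons_zero, Fin.cons_succ, h1, h2, RingHom.comp_apply]
  ring

/-- one parameter more -/
theorem IsPar.step {α : J → Fin m →₀ ℕ} {cc : J → T} {s t : J → k} {R : Type} [CommRing R]
    {c : T ⊗[ℤ] Polynomial k →+* R} {l : Fin n → R} {u : Fin m → R}
    (hR : IsPar α (fun j => cc j ⊗ₜ[ℤ] (Polynomial.C (t j) - Polynomial.C (s j) * Polynomial.X)) s t c l u)
    {Q : Type} [CommRing Q] (q : R →+* Q) (hq : Function.Surjective q)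
    (hq1 : (q.comp c).comp (algebraMap k (T ⊗[ℤ] Polynomial k)) = (q.comp c).comp ((inr1 k T).comp Polynomial.C))
    (hq2 : ∀ (E : Type) [CommRing E] (g : R →+* E),
      (g.comp c).comp (algebraMap k (T ⊗[ℤ] Polynomial k)) = (g.comp c).comp ((inr1 k T).comp Polynomial.C) →
        ∃ g' : Q →+* E, g'.comp q = g) :
    IsPar α cc s t ((q.comp c).comp (inl1 k T))
      (Fin.cons (q.comp c (inr1 k T Polynomial.X)) (fun i => q (l i)) : Fin (n + 1) → Q) (fun i => q (u i)) := by
  refine ⟨?_, ?_, ?_⟩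
  · rw [pfun_succ (q.comp c) hq1]
    have h3 := congrArg q hR.rel
    rw [pfun_map, map_zero] at h3
    exact h3
  · intro E _ f l' u' h
    obtain ⟨φ, hφ1, hφ2⟩ : ∃ φ : T ⊗[ℤ] Polynomial k →+* E, φ.comp (inl1 k T) = f ∧
        φ.comp (inr1 k T) = Polynomial.eval₂RingHom (f.comp (algebraMap k T)) (l' 0) := by
      refine ⟨(Algebra.TensorProduct.lift f.toIntAlgHom
        (Polynomial.eval₂RingHom (f.comp (algebraMap k T)) (l' 0)).toIntAlgHom
        (fun _ _ => Commute.all _ _)).toRingHom, ?_, ?_⟩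
      · refine RingHom.ext fun a => ?_
        simp [inl1]
      · refine RingHom.ext fun a => ?_
        simp [inr1]
    have hφ3 : φ.comp (algebraMap k (T ⊗[ℤ] Polynomial k)) = φ.comp ((inr1 k T).comp Polynomial.C) := by
      rw [← RingHom.comp_assoc, hφ2]
      refine RingHom.ext fun a => ?_
      have h3 : φ (inl1 k T (algebraMap k T a)) = f (algebraMap k T a) := RingHom.congr_fun hφ1 _
      rw [RingHom.comp_apply, RingHom.comp_apply, Polynomial.coe_eval₂RingHom, Polynomial.eval₂_C]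
      exact h3
    have hX : φ (inr1 k T Polynomial.X) = l' 0 := by
      have h3 := RingHom.congr_fun hφ2 Polynomial.X
      rw [Polynomial.coe_eval₂RingHom, Polynomial.eval₂_X] at h3
      exact h3
    have hl : (Fin.cons (φ (inr1 k T Polynomial.X)) (fun i => l' i.succ) : Fin (n + 1) → E) = l' := by
      rw [hX]
      exact Fin.cons_self_tail l'
    have h4 := pfun_succ (α := α) (cc := cc) (s := s) (t := t) φ hφ3 (fun i => l' i.succ) u'
    rw [hl, hφ1, h] at h4
    obtain ⟨g, g1, g2, g3⟩ := hR.ex E φ (fun i => l' i.succ) u' h4.symm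
    obtain ⟨g', hg'⟩ := hq2 E g (by rw [g1]; exact hφ3)
    have hg'' : ∀ a, g' (q a) = g a := fun a => RingHom.congr_fun hg' a
    refine ⟨g', ?_, ?_, ?_⟩
    · rw [← hφ1, ← g1, ← hg']
      rfl
    · intro i
      refine Fin.cases ?_ (fun i => ?_) i
      · rw [Fin.cons_zero, RingHom.comp_apply, hg'', ← RingHom.comp_apply, g1, hX]
      · rw [Fin.cons_succ, hg'', g2]
    · intro i
      rw [hg'', g3]
  · intro E _ f g h3 h4 h5
    have h6 : ∀ a : k, f (q (c (inr1 k T (Polynomial.C a)))) = g (q (c (inr1 k T (Polynomial.C a)))) := by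
      intro a
      have h7 : q (c (inr1 k T (Polynomial.C a))) = q (c (inl1 k T (algebraMap k T a))) :=
        (RingHom.congr_fun hq1 a).symm
      rw [h7]
      exact RingHom.congr_fun h3 (algebraMap k T a)
    have h7 : ((f.comp q).comp c).comp (inr1 k T) = ((g.comp q).comp c).comp (inr1 k T) := by
      refine Polynomial.ringHom_ext h6 ?_
      have h8 := h4 0
      rw [Fin.cons_zero] at h8
      exact h8
    have h8 : f.comp q = g.comp q := by
      refine hR.uniq E _ _ ?_ (fun i => ?_) fun i => h5 i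
      · refine RingHom.ext fun a => ?_
        induction a using TensorProduct.induction_on with
        | zero => rw [map_zero, map_zero]
        | tmul a b =>
          rw [← inl1_mul_inr1, map_mul, map_mul]
          exact congrArg₂ (· * ·) (RingHom.congr_fun h3 a) (RingHom.congr_fun h7 b)
        | add a b ha hb => rw [map_add, map_add, ha, hb]
      · have h8 := h4 i.succ
        rw [Fin.cons_succ] at h8
        exact h8
    refine RingHom.ext fun a => ?_
    obtain ⟨b, rfl⟩ := hq a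
    exact RingHom.congr_fun h8 b

end

section

variable {k : Type} [Field k] [Finite k] {J : Type} [Fintype J] {m : ℕ}

theorem par_step (hp : p.Prime) (hP : FormalClass p P) (hk : (p : k) = 0) {α : J → Fin m →₀ ℕ} (s t : J → k) {n : ℕ}
    {T : Type} [CommRing T] [Algebra k T] {cc : J → T} {R : Type} [CommRing R]
    {c : T ⊗[ℤ] Polynomial k →+* R} {l : Fin n → R} {u : Fin m → R}
    (hR : IsPar α (fun j => cc j ⊗ₜ[ℤ] (Polynomial.C (t j) - Polynomial.C (s j) * Polynomial.X)) s t c l u) 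
    (h : P R) : P (MvPolynomial (Fin (n + 1) ⊕ Fin m) T ⧸ Ideal.span {ppol (n + 1) α cc s t}) := by
  obtain ⟨e0, he0, he1, he2⟩ := exists_idem hp hk (algebraMap k (T ⊗[ℤ] Polynomial k))
    ((inr1 k T).comp Polynomial.C)
  have h2 := hP.summand R (c e0) (by rw [← map_mul, he0]) h
  have hQe : Ideal.Quotient.mk (Ideal.span {c e0}) (c e0) = 0 :=
    Ideal.Quotient.eq_zero_iff_mem.2 (Ideal.mem_span_singleton_self _)
  have hQ1 := he1 (R ⧸ Ideal.span {c e0}) ((Ideal.Quotient.mk (Ideal.span {c e0})).comp c) hQe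
  obtain ⟨e⟩ := (hR.step (Ideal.Quotient.mk (Ideal.span {c e0})) Ideal.Quotient.mk_surjective hQ1 (by
    intro E _ g hg
    have hg0 : g (c e0) = 0 := he2 E (g.comp c) hg
    refine ⟨Ideal.Quotient.lift _ g ?_, ?_⟩
    · intro a ha
      obtain ⟨b, rfl⟩ := Ideal.mem_span_singleton.1 ha
      rw [map_mul, hg0, zero_mul]
    · exact Ideal.Quotient.lift_comp_mk _ g _)).equiv (isPar_std (n + 1) α cc s t)
  exact hP.iso _ _ e h2

theorem par_mem (hp : p.Prime) (hP : FormalClass p P) (hk : (p : k) = 0) {α : J → Fin m →₀ ℕ}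
    (hα : AffineIndependent ℚ (fun j i => ((α j i : ℕ) : ℚ))) (s t : J → k) (n : ℕ) :
    ∀ (T : Type) [CommRing T] [Algebra k T] (cc : J → T), ProductFunctions p J T cc →
      P (MvPolynomial (Fin n ⊕ Fin m) T ⧸ Ideal.span {ppol n α cc s t}) := by
  have hpp : Fact p.Prime := ⟨hp⟩
  induction n with
  | zero =>
    intro T _ _ cc hcc
    obtain ⟨e⟩ := (isPar_zero α cc s t).equiv (isPar_std 0 α cc s t)
    refine hP.iso _ _ e (of_tame hp hP (Pool.Agent.Helper87.CC.tameClosed_tame.simplex p J m α hα T cc hcc) ?_)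
    refine char_quot ?_ _
    rw [← map_natCast (C : T →+* MvPolynomial (Fin m) T), ← map_natCast (algebraMap k T), hk, map_zero, map_zero]
  | succ n ih =>
    intro T _ _ cc hcc
    have hfk : Algebra.FiniteType ℤ k := by
      have : Module.Finite ℤ k := Module.Finite.of_finite
      infer_instance
    have hfX : Algebra.FiniteType ℤ (Polynomial k) := ft_alg hfk inferInstance
    have hdX : ringKrullDim (Polynomial k) ≤ 1 := by
      rw [Polynomial.ringKrullDim_of_isNoetherianRing, ringKrullDim_eq_zero_of_field]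
      simp
    exact par_step hp hP hk s t (isPar_std n α _ s t) (ih (T ⊗[ℤ] Polynomial k) _
      (ProductFunctions.tensor T (Polynomial k) cc
        (fun j => Polynomial.C (t j) - Polynomial.C (s j) * Polynomial.X) hcc hfX hdX))

/-! ### constants -/

omit [Finite k] in
theorem pfun_const {T : Type} [CommRing T] [Algebra k T] {n : ℕ} {α : J → Fin m →₀ ℕ} {cc : J → T} {s t e : J → k}
    {E : Type} [CommRing E] (φ : T ⊗[ℤ] k →+* E)
    (hφ : φ.comp (algebraMap k (T ⊗[ℤ] k)) =
      φ.comp ((Algebra.TensorProduct.includeRight : k →ₐ[ℤ] T ⊗[ℤ] k).toRingHom))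
    (l : Fin n → E) (u : Fin m → E) :
    pfun α (fun j => cc j * algebraMap k T (e j)) s t
        (φ.comp ((Algebra.TensorProduct.includeLeft : T →ₐ[ℤ] T ⊗[ℤ] k).toRingHom)) l u =
      pfun α (fun j => cc j ⊗ₜ[ℤ] e j) s t φ l u := by
  unfold pfun
  refine Finset.sum_congr rfl fun j _ => ?_
  have h0 : ∀ a : k, φ ((1 : T) ⊗ₜ[ℤ] a) = φ (algebraMap k T a ⊗ₜ[ℤ] (1 : k)) := by
    intro a
    exact (RingHom.congr_fun hφ a).symm
  have h2 : φ (cc j ⊗ₜ[ℤ] e j) = φ ((cc j * algebraMap k T (e j)) ⊗ₜ[ℤ] (1 : k)) := by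
    have h3 : cc j ⊗ₜ[ℤ] e j = (cc j ⊗ₜ[ℤ] (1 : k)) * ((1 : T) ⊗ₜ[ℤ] e j) := by
      rw [Algebra.TensorProduct.tmul_mul_tmul, mul_one, one_mul]
    have h4 : (cc j * algebraMap k T (e j)) ⊗ₜ[ℤ] (1 : k) =
        (cc j ⊗ₜ[ℤ] (1 : k)) * (algebraMap k T (e j) ⊗ₜ[ℤ] (1 : k)) := by
      rw [Algebra.TensorProduct.tmul_mul_tmul, mul_one]
    rw [h3, h4, map_mul, map_mul, h0]
  rw [h2]
  rfl

omit [Finite k] in
theorem IsPar.const {T : Type} [CommRing T] [Algebra k T] {n : ℕ} {α : J → Fin m →₀ ℕ} {cc : J → T} {s t e : J → k}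
    {R : Type} [CommRing R] {c : T ⊗[ℤ] k →+* R} {l : Fin n → R} {u : Fin m → R}
    (hR : IsPar α (fun j => cc j ⊗ₜ[ℤ] e j) s t c l u)
    {Q : Type} [CommRing Q] (q : R →+* Q) (hq : Function.Surjective q)
    (hq1 : (q.comp c).comp (algebraMap k (T ⊗[ℤ] k)) =
      (q.comp c).comp ((Algebra.TensorProduct.includeRight : k →ₐ[ℤ] T ⊗[ℤ] k).toRingHom))
    (hq2 : ∀ (E : Type) [CommRing E] (g : R →+* E),
      (g.comp c).comp (algebraMap k (T ⊗[ℤ] k)) =
        (g.comp c).comp ((Algebra.TensorProduct.includeRight : k →ₐ[ℤ] T ⊗[ℤ] k).toRingHom) →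
        ∃ g' : Q →+* E, g'.comp q = g) :
    IsPar α (fun j => cc j * algebraMap k T (e j)) s t
      ((q.comp c).comp ((Algebra.TensorProduct.includeLeft : T →ₐ[ℤ] T ⊗[ℤ] k).toRingHom))
      (fun i => q (l i)) (fun i => q (u i)) := by
  refine ⟨?_, ?_, ?_⟩
  · rw [pfun_const (q.comp c) hq1]
    have h3 := congrArg q hR.rel
    rw [pfun_map, map_zero] at h3
    exact h3
  · intro E _ f l' u' h
    obtain ⟨φ, hφ1, hφ2⟩ : ∃ φ : T ⊗[ℤ] k →+* E,
        φ.comp ((Algebra.TensorProduct.includeLeft : T →ₐ[ℤ] T ⊗[ℤ] k).toRingHom) = f ∧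
        φ.comp ((Algebra.TensorProduct.includeRight : k →ₐ[ℤ] T ⊗[ℤ] k).toRingHom) =
          f.comp (algebraMap k T) := by
      refine ⟨(Algebra.TensorProduct.lift f.toIntAlgHom (f.comp (algebraMap k T)).toIntAlgHom
        (fun _ _ => Commute.all _ _)).toRingHom, ?_, ?_⟩
      · refine RingHom.ext fun a => ?_
        simp
      · refine RingHom.ext fun a => ?_
        simp
    have hφ3 : φ.comp (algebraMap k (T ⊗[ℤ] k)) =
        φ.comp ((Algebra.TensorProduct.includeRight : k →ₐ[ℤ] T ⊗[ℤ] k).toRingHom) := by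
      rw [hφ2]
      refine RingHom.ext fun a => ?_
      exact RingHom.congr_fun hφ1 (algebraMap k T a)
    have h4 := pfun_const (α := α) (cc := cc) (s := s) (t := t) (e := e) φ hφ3 l' u'
    rw [hφ1, h] at h4
    obtain ⟨g, g1, g2, g3⟩ := hR.ex E φ l' u' h4.symm
    obtain ⟨g', hg'⟩ := hq2 E g (by rw [g1]; exact hφ3)
    have hg'' : ∀ a, g' (q a) = g a := fun a => RingHom.congr_fun hg' a
    refine ⟨g', ?_, fun i => ?_, fun i => ?_⟩
    · rw [← hφ1, ← g1, ← hg']
      rfl
    · rw [hg'', g2]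
    · rw [hg'', g3]
  · intro E _ f g h3 h4 h5
    have h7 : ∀ a : k, f (q (c ((1 : T) ⊗ₜ[ℤ] a))) = g (q (c ((1 : T) ⊗ₜ[ℤ] a))) := by
      intro a
      have h7 : q (c ((1 : T) ⊗ₜ[ℤ] a)) = q (c (algebraMap k T a ⊗ₜ[ℤ] (1 : k))) :=
        (RingHom.congr_fun hq1 a).symm
      rw [h7]
      exact RingHom.congr_fun h3 (algebraMap k T a)
    have h8 : f.comp q = g.comp q := by
      refine hR.uniq E _ _ ?_ (fun i => h4 i) fun i => h5 i
      refine RingHom.ext fun a => ?_
      induction a using TensorProduct.induction_on with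
      | zero => rw [map_zero, map_zero]
      | tmul a b =>
        have h9 : a ⊗ₜ[ℤ] b = (a ⊗ₜ[ℤ] (1 : k)) * ((1 : T) ⊗ₜ[ℤ] b) := by
          rw [Algebra.TensorProduct.tmul_mul_tmul, mul_one, one_mul]
        rw [h9, map_mul, map_mul]
        exact congrArg₂ (· * ·) (RingHom.congr_fun h3 a) (h7 b)
      | add a b ha hb => rw [map_add, map_add, ha, hb]
    refine RingHom.ext fun a => ?_
    obtain ⟨b, rfl⟩ := hq a
    exact RingHom.congr_fun h8 b

theorem par_const_step (hp : p.Prime) (hP : FormalClass p P) (hk : (p : k) = 0) {α : J → Fin m →₀ ℕ}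
    {s t e : J → k} {n : ℕ} {T : Type} [CommRing T] [Algebra k T] {cc : J → T} {R : Type} [CommRing R]
    {c : T ⊗[ℤ] k →+* R} {l : Fin n → R} {u : Fin m → R}
    (hR : IsPar α (fun j => cc j ⊗ₜ[ℤ] e j) s t c l u) (h : P R) :
    P (MvPolynomial (Fin n ⊕ Fin m) T ⧸ Ideal.span {ppol n α (fun j => cc j * algebraMap k T (e j)) s t}) := by
  obtain ⟨e0, he0, he1, he2⟩ := exists_idem hp hk (algebraMap k (T ⊗[ℤ] k))
    ((Algebra.TensorProduct.includeRight : k →ₐ[ℤ] T ⊗[ℤ] k).toRingHom)
  have h2 := hP.summand R (c e0) (by rw [← map_mul, he0]) h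
  have hQe : Ideal.Quotient.mk (Ideal.span {c e0}) (c e0) = 0 :=
    Ideal.Quotient.eq_zero_iff_mem.2 (Ideal.mem_span_singleton_self _)
  have hQ1 := he1 (R ⧸ Ideal.span {c e0}) ((Ideal.Quotient.mk (Ideal.span {c e0})).comp c) hQe
  obtain ⟨f⟩ := (hR.const (Ideal.Quotient.mk (Ideal.span {c e0})) Ideal.Quotient.mk_surjective hQ1 (by
    intro E _ g hg
    have hg0 : g (c e0) = 0 := he2 E (g.comp c) hg
    refine ⟨Ideal.Quotient.lift _ g ?_, ?_⟩
    · intro a ha
      obtain ⟨b, rfl⟩ := Ideal.mem_span_singleton.1 ha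
      rw [map_mul, hg0, zero_mul]
    · exact Ideal.Quotient.lift_comp_mk _ g _)).equiv
      (isPar_std n α (fun j => cc j * algebraMap k T (e j)) s t)
  exact hP.iso _ _ f h2

/-- coefficients which are products of functions on curves, linear functions of parameters and
constants -/
theorem par_mem_const (hp : p.Prime) (hP : FormalClass p P) (hk : (p : k) = 0) {α : J → Fin m →₀ ℕ}
    (hα : AffineIndependent ℚ (fun j i => ((α j i : ℕ) : ℚ))) (s t : J → k) (n : ℕ)
    {T : Type} [CommRing T] [Algebra k T] {cc : J → T} (hcc : ProductFunctions p J T cc) (e : J → k) :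
    P (MvPolynomial (Fin n ⊕ Fin m) T ⧸ Ideal.span {ppol n α (fun j => cc j * algebraMap k T (e j)) s t}) := by
  have hpp : Fact p.Prime := ⟨hp⟩
  have hfk : Algebra.FiniteType ℤ k := by
    have : Module.Finite ℤ k := Module.Finite.of_finite
    infer_instance
  have hd : ringKrullDim k ≤ 1 := by
    rw [ringKrullDim_eq_zero_of_field]
    exact zero_le_one
  exact par_const_step hp hP hk (isPar_std n α (fun j => cc j ⊗ₜ[ℤ] e j) s t)
    (par_mem hp hP hk hα s t n (T ⊗[ℤ] k) _ (ProductFunctions.tensor T k cc e hcc hfk hd))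

/-- the same with the polynomial written out -/
theorem par_mem_const' (hp : p.Prime) (hP : FormalClass p P) (hk : (p : k) = 0) {α : J → Fin m →₀ ℕ}
    (hα : AffineIndependent ℚ (fun j i => ((α j i : ℕ) : ℚ))) (s t : J → k) (n : ℕ)
    {T : Type} [CommRing T] [Algebra k T] {cc : J → T} (hcc : ProductFunctions p J T cc) (e : J → k) :
    P (MvPolynomial (Fin n ⊕ Fin m) T ⧸ Ideal.span {∑ j, C (cc j * algebraMap k T (e j)) *
      (∏ i : Fin n, (C (algebraMap k T (t j)) - C (algebraMap k T (s j)) * X (Sum.inl i))) *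
      ∏ i, X (Sum.inr i) ^ (α j i)}) :=
  par_mem_const hp hP hk hα s t n hcc e

/-- **affinely independent exponents, coefficients which are products of linear functions of
parameters** -/
theorem simplex_par (hp : p.Prime) (hP : FormalClass p P) (hk : (p : k) = 0) {n : ℕ} (a : J → Fin m →₀ ℕ)
    (ha : AffineIndependent ℚ (fun j i => ((a j i : ℕ) : ℚ))) (c s t : J → k) :
    P (MvPolynomial (Fin n ⊕ Fin m) k ⧸ Ideal.span {∑ j, C (c j) *
      (∏ i : Fin n, (C (t j) - C (s j) * X (Sum.inl i))) * ∏ i, X (Sum.inr i) ^ (a j i)}) :=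
  par_mem hp hP hk ha s t n k c (prod_const hp hk c)

end

end Pool.Agent.Helper67.SF
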