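import Pool.Agent.Helper67.SF.Defs

/-!
# Forms in disjoint variables: extension of the field
-/

set_option autoImplicit false

namespace Pool.Agent.Helper67.SF

open MvPolynomial

variable {k K : Type} [Field k] [Field K]

theorem comp_map (φ : k →+* K) {s : ℕ} {σ : Fin s → Type} (H : MvPolynomial (Fin s) k)
    (F : ∀ j, MvPolynomial (σ j) k) : comp (map φ H) (fun j => map φ (F j)) = map φ (comp H F) := by
  rw [comp, comp, aeval_def, aeval_def, ← MvPolynomial.coe_eval₂Hom, ← MvPolynomial.coe_eval₂Hom]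
  have h : ((eval₂Hom (algebraMap K (MvPolynomial (Σ j, σ j) K)) fun j => rename (Sigma.mk j) (map φ (F j))).comp
      (map φ)) = (map φ).comp (eval₂Hom (algebraMap k (MvPolynomial (Σ j, σ j) k))
        fun j => rename (Sigma.mk j) (F j)) := by
    refine MvPolynomial.ringHom_ext (fun a => ?_) fun j => ?_
    · rw [RingHom.comp_apply, RingHom.comp_apply, map_C, eval₂Hom_C, eval₂Hom_C, algebraMap_eq, algebraMap_eq,
        map_C]
    · rw [RingHom.comp_apply, RingHom.comp_apply, map_X, eval₂Hom_X', eval₂Hom_X', map_rename]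
  exact RingHom.congr_fun h H

theorem whom_map (φ : k →+* K) {σ M : Type} [AddCommMonoid M] {w : σ → M} {d : M} {F : MvPolynomial σ k}
    (hF : IsWeightedHomogeneous w F d) : IsWeightedHomogeneous w (map φ F) d := by
  intro m hm
  refine hF fun h0 => hm ?_
  rw [coeff_map, h0, map_zero]

theorem totalDegree_map_le (φ : k →+* K) {σ : Type} (F : MvPolynomial σ k) :
    (map φ F).totalDegree ≤ F.totalDegree := Finset.sup_mono (support_map_subset φ F)

theorem Small.map (φ : k →+* K) {σ : Type} [Fintype σ] {F : MvPolynomial σ k} {d : ℕ} (hF : Small F d) :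
    Small (MvPolynomial.map φ F) d := by
  obtain ⟨hd, h⟩ := hF
  refine ⟨hd, ?_⟩
  rcases h with ⟨⟨w, hw⟩, h1⟩ | ⟨h2, h3, h4⟩
  · refine Or.inl ⟨⟨w, whom_map φ hw⟩, ?_⟩
    rcases h1 with h1 | ⟨h1, h5⟩ | h1
    · exact Or.inl h1
    · exact Or.inr (Or.inl ⟨h1, (totalDegree_map_le φ F).trans h5⟩)
    · exact Or.inr (Or.inr ((totalDegree_map_le φ F).trans h1))
  · refine Or.inr ⟨?_, h3, ?_⟩
    · rw [← map_ofNat φ 2]
      exact (map_ne_zero φ).2 h2
    · rcases h4 with ⟨h4, h5⟩ | ⟨h5, i, w, hi, hj, h4⟩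
      · exact Or.inl ⟨whom_map φ h4, h5⟩
      · exact Or.inr ⟨h5, i, w, hi, hj, whom_map φ h4⟩

theorem Independent.map (φ : k →+* K) {s : ℕ} {H : MvPolynomial (Fin s) k} (hH : Independent H) :
    Independent (MvPolynomial.map φ H) := by
  rcases hH with hs | hH
  · exact Or.inl hs
  · right
    have h1 : (MvPolynomial.map φ H).support = H.support := support_map_of_injective H φ.injective
    have h2 : ∀ S : Finset (Fin s →₀ ℕ), S = H.support →
        AffineIndependent ℚ (fun (m : S) (i : Fin s) => ((m.1 i : ℕ) : ℚ)) := by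
      rintro S rfl
      exact hH
    exact h2 _ h1

/-- forms remain forms under field extensions -/
theorem Form.map (φ : k →+* K) {σ : Type} {F : MvPolynomial σ k} {d : ℕ} (hF : Form F d) :
    Form (MvPolynomial.map φ F) d := by
  induction hF with
  | small F d h => exact Form.small _ d (h.map φ)
  | comp F d H w e _ hH he hw ih =>
    rw [← comp_map]
    exact Form.comp _ d _ w e ih (hH.map φ) he (whom_map φ hw)

end Pool.Agent.Helper67.SF
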